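import Pool.Agent.H.MP_85fa44_nt.E

set_option autoImplicit false

namespace Pool.Agent.Results.MP_85fa44_nt.Interval

open Pool.Agent.H.MP_85fa44_nt

theorem result : Set.Icc (0 : ℝ) (1 / 1000) ⊆ spec ∧
    ∀ ξ ζ : ℝ, L ξ ζ ≤ ((200 / 401 : ℝ) : EReal) := by
  refine ⟨fun c hc => ?_, L_le⟩
  rcases hc.1.eq_or_lt with h | h
  · exact h ▸ zero_mem
  · exact main h hc.2

end Pool.Agent.Results.MP_85fa44_nt.Interval
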